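import Pool.Agent.N869.GK.H.Core
import Pool.Agent.N869.GK.StmM

/-!
# Project GK: the averages from the parts, several curves
-/

set_option autoImplicit false
set_option linter.unusedSectionVars false
set_option linter.unusedVariables false

open scoped Classical

namespace Pool.Agent.N869.GK.M

open Finset Filter Topology
open Pool.Agent.Y703.CX (sm la jj XX eL zz kk)
open Pool.Agent.Y703.CQ (nr sg)
open Pool.Agent.N916.GB (Po SA S_BIL)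
open Pool.Agent.N869.QT.L (prs ext Lc Fam)
open Pool.Agent.N869.QT.G (sys exC pr Dep)
open Pool.Agent.N869.ZE (cnt lc BoxA OkP mrg EE S_ASYA RareA sys_congr pr_false pr_mono pr_congr)
open Pool.Agent.N869.ZE.A (PairK bilK lvB)
open Pool.Agent.N869.GK
open Pool.Agent.N869.GK.A (okG ndG_congr bd)
open Pool.Agent.N869.GK.H (AsyE AsyH pr_sum rg KC Gc gk_inj kap_bd kc_bd)

theorem gdM_congr {r : ℕ} {C I Q : Type} {D : C → Par r} {lb : ℕ → Gr r} {ρ : I → C → ℕ}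
    {E : I → Finset Q} {S : Finset ℕ} {γ γ' : ℕ → Q} (h : ∀ p ∈ S, γ p = γ' p) :
    (∀ a k, Gk (D k) lb nr (ρ a k) (sys γ E S a)) ↔ ∀ a k, Gk (D k) lb nr (ρ a k) (sys γ' E S a) :=
  forall_congr' fun a => by rw [sys_congr h a]

/-- GK-ASYGM: the averages. -/
def S_ASYGM : Prop := ∀ (r : ℕ) (C : Type) [Fintype C] (D₀ : Par r) (D : C → Par r), OkM D₀ D →
  ∀ e : C → ℕ, (∀ k, Rk (D k) (e k)) →
  ∀ (M : ℕ) (lb : ℕ → Gr r), LabOk D₀ M lb → ∀ (V : Type) [Fintype V] (lv : ℕ → V) (tv : V → Gr r)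
  (Bad : Set V), (∀ p, Po p → p ∣ M → lv p ∈ Bad) → (∀ p, Po p → lb p = tv (lv p)) →
  ∀ (I Q : Type) [Fintype I] [Fintype Q] [Nonempty Q] (E : I → Finset Q), Fam E →
  ∀ ρ : I → C → ℕ, (∀ a k, ρ a k % 2 = e k % 2) →
  AsyE SA (fun a S => ∀ k, Gk (D k) lb nr (ρ a k) S) (∏ a, ∏ k, kap (ρ a k)) lv (AdG tv) Bad E

/-- **GK-ASYGM.** -/
theorem t_ASYGM (hA : S_ASYA) (hB : S_BIL) (hL : S_LAM) (hSub : S_SUB) (hBx : S_BOXM)
    (hR : ∀ (r : ℕ) (D : Par r) (M : ℕ)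
      (lb : ℕ → Gr r), LabOk D M lb → ∀ (Q : Type) [Fintype Q] [Nonempty Q] (K : ℕ) (ε : ℝ), 0 < ε →
      ∃ X₀ : ℕ, ∀ X : ℕ, X₀ ≤ X →
      ∑ S ∈ (SA X).filter (fun S => S.card ≤ kk X ∧ ∀ p ∈ S, ¬ p ∣ M),
        pr S (fun γ : ℕ → Q => ¬ NdG lb K γ (sm (zz X) S) (la (zz X) S)) ≤ ε * X) : S_ASYGM := by
  intro r C _ D₀ D hD e he M lb hlb V _ lv tv Bad hBad htv I Q _ _ _ E hE ρ hρ P hP ε hε
  obtain ⟨C', hC⟩ := bilK hB
  obtain ⟨K, hK⟩ := hL r C D₀ D hD e he I Q E hE ρ hρ (ε / 3) (by linarith)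
  obtain ⟨B, hBB⟩ := hBx hSub r C D₀ D M lb hlb hD.em I Q ρ E hE (ε / 3) K hK
  have hok := okG hBad htv hP
  have hrare : RareA lv P (NdG lb K) (ε / 3) := by
    obtain ⟨X₀, h0⟩ := hR r D₀ M lb hlb Q K (ε / 3) (by linarith)
    refine ⟨X₀, fun X hX => le_trans ?_ (h0 X hX)⟩
    have hsub : (SA X).filter (fun S => S.card ≤ kk X ∧ ∀ p ∈ S, ¬ p ∣ M) ⊆
        (SA X).filter (fun S => S.card ≤ kk X) := fun S hS => by
      rw [mem_filter] at hS ⊢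
      exact ⟨hS.1, hS.2.1⟩
    have hz : ∀ S ∈ (SA X).filter (fun S => S.card ≤ kk X),
        S ∉ (SA X).filter (fun S => S.card ≤ kk X ∧ ∀ p ∈ S, ¬ p ∣ M) →
        pr S (fun γ : ℕ → Q => P (cnt (lc γ lv) S) ∧
          ¬ NdG lb K γ (sm (zz X) S) (la (zz X) S)) = 0 := by
      intro S hS hS'
      rw [mem_filter] at hS hS'
      apply pr_false
      rintro γ ⟨h1, -⟩
      apply hS'
      refine ⟨hS.1, hS.2, ?_⟩
      have hSo : ∀ p ∈ S, Po p := by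
        have := hS.1
        unfold SA at this
        rw [mem_filter] at this
        exact this.2.1
      exact (hok.2 γ S hSo h1).1
    rw [← sum_subset hsub hz]
    refine sum_le_sum fun S _ => pr_mono fun γ h => h.2
  have hk1 : ∀ a, 0 ≤ ∏ k, kap (ρ a k) := fun a => prod_nonneg fun k _ => (kap_bd (ρ a k)).1
  have hk2 : ∀ a, ∏ k, kap (ρ a k) ≤ 1 := fun a =>
    prod_le_one (fun k _ => (kap_bd (ρ a k)).1) fun k _ => (kap_bd (ρ a k)).2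
  obtain ⟨X₀, h0⟩ := hA Q V lv PairK C' hC P (NdG lb K)
    (fun γ S => ∀ a k, Gk (D k) lb nr (ρ a k) (sys γ E S a))
    (∏ a, ∏ k, kap (ρ a k)) (ε / 3) B (prod_nonneg fun a _ => hk1 a)
    (prod_le_one (fun a _ => hk1 a) fun a _ => hk2 a) (by linarith)
    (fun S γ γ' h => gdM_congr h) (fun S₀ S₁ γ γ' h => ndG_congr h)
    (fun γ => hBB V lv P hok γ) hrare
  refine ⟨X₀, fun X hX => (h0 X hX).trans ?_⟩
  have : 3 * (ε / 3) * (X : ℝ) = ε * X := by ring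
  linarith

/-- the cumulative law -/
noncomputable def KM {C : Type} [Fintype C] (e : C → ℕ) (ρ : C → ℕ) : ℝ := ∏ k, KC (e k) (ρ k)

/-- the rank of the curve `k` is at most `ρ k` -/
def GM {r : ℕ} {C : Type} (D : C → Par r) (lb : ℕ → Gr r) (e : C → ℕ) (ρ : C → ℕ)
    (S : Finset ℕ) : Prop := ∀ k, Gc (D k) lb (e k) (ρ k) S

theorem km_bd {C : Type} [Fintype C] (e : C → ℕ) : ∀ ρ : C → ℕ, 0 ≤ KM e ρ ∧ KM e ρ ≤ 1 :=
  fun ρ => ⟨prod_nonneg fun k _ => (kc_bd (e k) (ρ k)).1,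
    prod_le_one (fun k _ => (kc_bd (e k) (ρ k)).1) fun k _ => (kc_bd (e k) (ρ k)).2⟩

theorem asyM (hASY : S_ASYGM) {r : ℕ} {C : Type} [Fintype C] {D₀ : Par r} {D : C → Par r}
    (hD : OkM D₀ D) {e : C → ℕ} (he : ∀ k, Rk (D k) (e k)) {M : ℕ} {lb : ℕ → Gr r}
    (hlb : LabOk D₀ M lb) : AsyH (KM e) (GM D lb e) M lb := by
  intro I Q _ _ _ E hE ρ P hP ε hε
  set B : Finset (I × C → ℕ) := Fintype.piFinset fun a => rg (e a.2) (ρ a.1 a.2) with hB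
  have hmem : ∀ β ∈ B, ∀ a, β a ∈ rg (e a.2) (ρ a.1 a.2) := fun β hβ => Fintype.mem_piFinset.1 hβ
  have hpar : ∀ β ∈ B, ∀ a, β a % 2 = e a.2 % 2 := by
    intro β hβ a
    have := hmem β hβ a
    unfold rg at this
    exact (mem_filter.1 this).2
  have hεB : 0 < ε / (B.card + 1) := by positivity
  have key : ∀ β ∈ B, ∃ X₀ : ℕ, ∀ X : ℕ, X₀ ≤ X →
      |∑ S ∈ SA X, pr S (fun γ : ℕ → Q => P (cnt (lc γ (lvB lb (bd M))) S) ∧
        ∀ a k, Gk (D k) lb nr (β (a, k)) (sys γ E S a)) -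
        (∏ a, kap (β a)) * ∑ S ∈ SA X, pr S (fun γ : ℕ → Q =>
          P (cnt (lc γ (lvB lb (bd M))) S))| ≤ ε / (B.card + 1) * X := by
    intro β hβ
    have e0 : ∏ a : I × C, kap (β a) = ∏ a, ∏ k, kap (β (a, k)) := Fintype.prod_prod_type _
    rw [e0]
    refine hASY r C D₀ D hD e he M lb hlb (Gr r × Bool) (lvB lb (bd M)) (fun x => x.1)
      {x | x.2 = true} ?_ (fun p _ => rfl) I Q E hE (fun a k => β (a, k))
      (fun a k => hpar β hβ (a, k)) P hP _ hεB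
    intro p _ hpM
    show decide (p ∈ bd M) = true
    exact decide_eq_true hpM
  have key' : ∀ β : I × C → ℕ, ∃ X₀ : ℕ, β ∈ B → ∀ X : ℕ, X₀ ≤ X →
      |∑ S ∈ SA X, pr S (fun γ : ℕ → Q => P (cnt (lc γ (lvB lb (bd M))) S) ∧
        ∀ a k, Gk (D k) lb nr (β (a, k)) (sys γ E S a)) -
        (∏ a, kap (β a)) * ∑ S ∈ SA X, pr S (fun γ : ℕ → Q =>
          P (cnt (lc γ (lvB lb (bd M))) S))| ≤ ε / (B.card + 1) * X := by
    intro β
    by_cases h : β ∈ B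
    · obtain ⟨X₀, h0⟩ := key β h
      exact ⟨X₀, fun _ => h0⟩
    · exact ⟨0, fun h' => absurd h' h⟩
  choose X₀ hX₀ using key'
  refine ⟨B.sup X₀, fun X hX => ?_⟩
  have e1 : ∀ S : Finset ℕ, pr S (fun γ : ℕ → Q => P (cnt (lc γ (lvB lb (bd M))) S) ∧
      ∀ a, GM D lb e (ρ a) (sys γ E S a)) = ∑ β ∈ B, pr S (fun γ : ℕ → Q =>
        P (cnt (lc γ (lvB lb (bd M))) S) ∧ ∀ a k, Gk (D k) lb nr (β (a, k)) (sys γ E S a)) := by
    intro S
    rw [← pr_sum]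
    · refine pr_congr fun γ => ?_
      constructor
      · rintro ⟨h1, h2⟩
        have h2' : ∀ a : I × C, ∃ j ∈ rg (e a.2) (ρ a.1 a.2), Gk (D a.2) lb nr j (sys γ E S a.1) :=
          fun a => h2 a.1 a.2
        choose β hβ using h2'
        exact ⟨β, Fintype.mem_piFinset.2 fun a => (hβ a).1, h1, fun a k => (hβ (a, k)).2⟩
      · rintro ⟨β, h1, h2, h3⟩
        exact ⟨h2, fun a k => ⟨β (a, k), hmem β h1 (a, k), h3 a k⟩⟩
    · rintro γ β hβ β' hβ' ⟨-, h1⟩ ⟨-, h2⟩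
      funext a
      exact gk_inj (h1 a.1 a.2) (h2 a.1 a.2)
  have e2 : ∏ a, KM e (ρ a) = ∑ β ∈ B, ∏ a, kap (β a) := by
    have e3 : ∏ a, KM e (ρ a) = ∏ a : I × C, KC (e a.2) (ρ a.1 a.2) :=
      (Fintype.prod_prod_type fun a : I × C => KC (e a.2) (ρ a.1 a.2)).symm
    rw [e3]
    unfold KC
    rw [Finset.prod_univ_sum]
  have e3 : ∑ S ∈ SA X, pr S (fun γ : ℕ → Q => P (cnt (lc γ (lvB lb (bd M))) S) ∧
      ∀ a, GM D lb e (ρ a) (sys γ E S a)) = ∑ β ∈ B, ∑ S ∈ SA X, pr S (fun γ : ℕ → Q =>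
        P (cnt (lc γ (lvB lb (bd M))) S) ∧ ∀ a k, Gk (D k) lb nr (β (a, k)) (sys γ E S a)) := by
    rw [sum_comm]
    exact sum_congr rfl fun S _ => e1 S
  rw [e3, e2, sum_mul, ← sum_sub_distrib]
  refine (abs_sum_le_sum_abs _ _).trans ?_
  refine (sum_le_sum fun β hβ => hX₀ β hβ X ((le_sup hβ).trans hX)).trans ?_
  rw [sum_const, nsmul_eq_mul]
  have h1 : (0 : ℝ) < (B.card : ℝ) + 1 := by positivity
  have h2 : (B.card : ℝ) * (ε / ((B.card : ℝ) + 1) * X) =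
      ((B.card : ℝ) / ((B.card : ℝ) + 1)) * (ε * X) := by
    field_simp
  rw [h2]
  have h3 : (B.card : ℝ) / ((B.card : ℝ) + 1) ≤ 1 := by
    rw [div_le_one h1]
    linarith
  have h4 : (0 : ℝ) ≤ ε * X := by positivity
  nlinarith

end Pool.Agent.N869.GK.M
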