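import Pool.Agent.N869.GK.M.Des

/-!
# Project GK: the law for several curves with arbitrary bad primes
-/

set_option autoImplicit false
set_option linter.unusedVariables false
set_option linter.unusedSectionVars false

open scoped Classical

namespace Pool.Agent.N869.GK.M

open Finset Filter Topology
open Pool.Agent.N856.JL (sfp)
open Pool.Agent.N869.GK
open Pool.Agent.N869.GK.D
open Pool.Agent.N869.GK.H (tps KC)
open Pool.Agent.N869.GK.N (Unr Dt S_SCALE S_CLS6)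
open Pool.Agent.TH841.SH (SelG)

/-- the hypotheses on a curve with the roots `e i`; the odd bad primes are in `b` -/
structure CrvB (b : Finset ℕ) (e : Fin 3 → ℤ) : Prop where
  h01 : e 0 ≠ e 1
  h02 : e 0 ≠ e 2
  h12 : e 1 ≠ e 2
  sub : ∀ p : ℕ, p.Prime → p ≠ 2 → (p : ℤ) ∣ (e 0 - e 1) * (e 0 - e 2) * (e 1 - e 2) → p ∈ b
  n1 : ¬ IsSquare ((e 0 - e 1) * (e 0 - e 2))
  n2 : ¬ IsSquare ((e 1 - e 0) * (e 1 - e 2))
  n3 : ¬ IsSquare ((e 2 - e 0) * (e 2 - e 1))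

theorem crv_of {b : Finset ℕ} (hb : ∀ l ∈ b, l.Prime ∧ l ≠ 2) {e : Fin 3 → ℤ} (h : CrvB b e) :
    Crv b (((∏ l ∈ b, l : ℕ) : ℤ) ^ 2 * e 0) (((∏ l ∈ b, l : ℕ) : ℤ) ^ 2 * e 1)
      (((∏ l ∈ b, l : ℕ) : ℤ) ^ 2 * e 2) := by
  have hs0 : ((∏ l ∈ b, l : ℕ) : ℤ) ≠ 0 := by
    have : (∏ l ∈ b, l : ℕ) ≠ 0 := prod_ne_zero_iff.2 fun l hl => (hb l hl).1.ne_zero
    exact_mod_cast this
  set s : ℤ := ((∏ l ∈ b, l : ℕ) : ℤ) with hs
  have h2 : s ^ 2 ≠ 0 := pow_ne_zero 2 hs0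
  have key : ∀ x y z w : ℤ, ¬ IsSquare ((x - y) * (z - w)) →
      ¬ IsSquare ((s ^ 2 * x - s ^ 2 * y) * (s ^ 2 * z - s ^ 2 * w)) := by
    intro x y z w h1 h3
    apply h1
    refine sq_cancel (s := s ^ 2) h2 ?_
    have e1 : (x - y) * (z - w) * (s ^ 2) ^ 2 =
      (s ^ 2 * x - s ^ 2 * y) * (s ^ 2 * z - s ^ 2 * w) := by ring
    rw [e1]
    exact h3
  refine ⟨fun h3 => h.h01 (mul_left_cancel₀ h2 h3), fun h3 => h.h02 (mul_left_cancel₀ h2 h3),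
    fun h3 => h.h12 (mul_left_cancel₀ h2 h3), ?_, key _ _ _ _ h.n1, key _ _ _ _ h.n2,
    key _ _ _ _ h.n3⟩
  intro p
  have e1 : (s ^ 2 * e 0 - s ^ 2 * e 1) * (s ^ 2 * e 0 - s ^ 2 * e 2) *
      (s ^ 2 * e 1 - s ^ 2 * e 2) = s ^ 6 * ((e 0 - e 1) * (e 0 - e 2) * (e 1 - e 2)) := by ring
  rw [e1]
  constructor
  · intro hp
    refine ⟨(hb p hp).1, (hb p hp).2, ?_⟩
    have h3 : (p : ℤ) ∣ s := by
      rw [hs]
      exact_mod_cast dvd_prod_of_mem (fun l => l) hp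
    exact (h3.trans (dvd_pow_self s (by norm_num))).mul_right _
  · rintro ⟨hp, hp2, h3⟩
    have hpp : Prime (p : ℤ) := Nat.prime_iff_prime_int.1 hp
    rcases hpp.dvd_mul.1 h3 with h4 | h4
    · have h5 : (p : ℤ) ∣ s := hpp.dvd_of_dvd_pow h4
      rw [hs] at h5
      have h6 : p ∣ ∏ l ∈ b, l := by exact_mod_cast h5
      obtain ⟨l, hl, h7⟩ := (Prime.dvd_finset_prod_iff hp.prime _).1 h6
      have h8 : p = l := (Nat.prime_dvd_prime_iff_eq hp (hb l hl).1).1 h7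
      rw [h8]
      exact hl
    · exact h.sub p hp hp2 h4

theorem unr_scale {s : ℤ} (hs : s ≠ 0) {e e' : Fin 3 → ℤ} (h : Unr e e') :
    Unr (fun i => s ^ 2 * e i) (fun i => s ^ 2 * e' i) := by
  intro σ hσ
  apply h σ
  intro i j hij
  have h1 := hσ i j hij
  refine sq_cancel (s := s ^ 2) (pow_ne_zero 2 hs) ?_
  have e1 : (e i - e j) * (e' (σ i) - e' (σ j)) * (s ^ 2) ^ 2 =
    (s ^ 2 * e i - s ^ 2 * e j) * (s ^ 2 * e' (σ i) - s ^ 2 * e' (σ j)) := by ring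
  rw [e1]
  exact h1

/-- **The law for several curves.** -/
theorem coreG (hASY : S_ASYGM) (hCLS : S_CLS6) (hCJ : S_CJ6) (hSC : S_SCALE) {b : Finset ℕ}
    (hb : ∀ l ∈ b, l.Prime ∧ l ≠ 2) {C : Type} [Fintype C]
    {e : C → Fin 3 → ℤ} (hC : ∀ k, CrvB b (e k))
    (hu : ∀ k k', k ≠ k' → Unr (e k) (e k')) {kk ee : C → ℕ}
    (hcard : ∀ k, (SelG (e k 0) (e k 1) (e k 2)).ncard = 2 ^ (2 * kk k + ee k))
    (w : Bool) (n : ℕ) (hn : w = true → 2 ≤ n)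
    (𝒯 : Finset (Finset (Fin n))) (h𝒯 : ∀ T ∈ 𝒯, T.Nonempty) (ρ : Finset (Fin n) → C → ℕ) {δ : ℝ}
    (hδ : 0 < δ)
    (i1 : DecidablePred fun f : ℕ => (Squarefree f ∧ f.Coprime (MM b)) ∧ BigM b e ee w ρ 𝒯 δ f)
    (i2 : DecidablePred fun f : ℕ => Squarefree f ∧ f.Coprime (MM b)) :
    Tendsto (fun X : ℕ => ((@Finset.filter ℕ (fun f => (Squarefree f ∧ f.Coprime (MM b)) ∧
      BigM b e ee w ρ 𝒯 δ f) i1 (Icc 1 X)).card : ℝ) /
      ((@Finset.filter ℕ (fun f => Squarefree f ∧ f.Coprime (MM b)) i2 (Icc 1 X)).card : ℝ))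
      atTop (𝓝 1) := by
  have hs0 : ((∏ l ∈ b, l : ℕ) : ℤ) ≠ 0 := by
    have : (∏ l ∈ b, l : ℕ) ≠ 0 := prod_ne_zero_iff.2 fun l hl => (hb l hl).1.ne_zero
    exact_mod_cast this
  set s : ℤ := ((∏ l ∈ b, l : ℕ) : ℤ) with hs
  have key := coreM hASY hCLS hCJ hb (C := C) (e := fun k i => s ^ 2 * e k i)
    (fun k => crv_of hb (hC k)) (fun k k' h => unr_scale hs0 (hu k k' h)) (kk := kk) (ee := ee)
    (fun k => by
      show (SelG (s ^ 2 * e k 0) (s ^ 2 * e k 1) (s ^ 2 * e k 2)).ncard = _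
      rw [hSC _ _ _ _ hs0]
      exact hcard k) w n hn 𝒯 h𝒯 ρ hδ
    (fun _ => Classical.propDecidable _) i2
  have e1 : ∀ f : ℕ, BigM b (fun k i => s ^ 2 * e k i) ee w ρ 𝒯 δ f ↔ BigM b e ee w ρ 𝒯 δ f := by
    intro f
    have e2 : ∀ x : Fin n → ℕ, smlM (fun k i => s ^ 2 * e k i) ρ 𝒯 x ↔ smlM e ρ 𝒯 x := by
      intro x
      unfold smlM
      refine forall_congr' fun T => forall_congr' fun _ => forall_congr' fun k =>
        forall_congr' fun d => forall_congr' fun _ => ?_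
      have e3 : SelG ((d : ℤ) * (s ^ 2 * e k 0)) (d * (s ^ 2 * e k 1)) (d * (s ^ 2 * e k 2)) =
          SelG (d * e k 0) (d * e k 1) (d * e k 2) := by
        rw [← hSC (d * e k 0) (d * e k 1) (d * e k 2) s hs0]
        congr 1 <;> ring
      rw [e3]
    unfold BigM
    simp only [e2]
  have e4 : (fun f : ℕ => (Squarefree f ∧ f.Coprime (MM b)) ∧
      BigM b (fun k i => s ^ 2 * e k i) ee w ρ 𝒯 δ f) =
      fun f : ℕ => (Squarefree f ∧ f.Coprime (MM b)) ∧ BigM b e ee w ρ 𝒯 δ f :=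
    funext fun f => propext (and_congr_right fun _ => e1 f)
  refine key.congr fun X => ?_
  congr 2
  exact congrArg Finset.card (Finset.filter_congr_decidable _ _ _ |>.trans (by simp only [e4]) )

end Pool.Agent.N869.GK.M
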