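import Pool.Agent.N869.GK.M.Sha
import Pool.Agent.N42.GK.GENM
import Pool.Agent.N933.GKM.PRODM
import Pool.Agent.N655.GK.COUNTM
import Pool.Agent.N170.GK.ExpM
import Pool.Agent.N221.GK.SMALLM
import Pool.Agent.N49.GK.FACTM
import Pool.Agent.N263.GK.PAIRM
import Pool.Agent.N478.GK.VALM
import Pool.Agent.N391.GK.MOMAM
import Pool.Agent.N558.GK.INVUM
import Pool.Agent.N395.GK.INVAM
import Pool.Agent.N723.GK.LAAM
import Pool.Agent.N300.GK.BOXM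
import Pool.Agent.N853.GK.CJ6
import Pool.Agent.N372.GK.KTAIL
import Pool.Agent.N690.GK.TWU

/-!
# Project GK: several curves, the parts

Parts by helpers 42 (GENM), 933 (PRODM), 655 (COUNTM), 170 (EXPM), 221 (SMALLM), 49 (FACTM), 263 (PAIRM),
478 (VALM), 391 (MOMAM), 558 (INVUM), 395 (INVAM), 723 (LAAM), 300 (BOXM), 853 (CJ6), 372 (KTAIL),
690 (TWU), and those listed in `GK/H/Parts.lean`.
-/

set_option autoImplicit false

namespace Pool.Agent.N869.GK.M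

open Pool.Agent.N869.GK

theorem t_MOMM' : S_MOMM :=
  Pool.Agent.N391.GK.t_MOMAM Pool.Agent.N286.GK.t_UNL Pool.Agent.N386.GK.t_FAM
    Pool.Agent.N7.GK.Split.t_SPLIT Pool.Agent.N170.GK.ExpM.t_EXPM Pool.Agent.N221.GK.t_SMALLM
    Pool.Agent.N49.GK.t_FACTM Pool.Agent.N263.GK.PAIRM.t_PAIRM Pool.Agent.N478.GK.t_VALM
    Pool.Agent.N655.GK.t_COUNTM Pool.Agent.N814.GK.t_COUNT Pool.Agent.N901.GK.t_AUTO
    Pool.Agent.N891.GK.t_TOR Pool.Agent.N558.GK.t_KC Pool.Agent.N833.GK.t_VAL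
    Pool.Agent.N933.GKM.t_PRODM Pool.Agent.N42.GK.M.t_GENM

theorem t_LAM' : S_LAM :=
  Pool.Agent.N723.GK.t_LAAM t_MOMM'
    (Pool.Agent.N395.GK.t_INVAM Pool.Agent.N558.GK.t_INVUM Pool.Agent.N693.GK.t_REF
      Pool.Agent.N495.GK.t_KAP)
    Pool.Agent.N713.GK.t_PAR Pool.Agent.N401.GK.t_ALTR Pool.Agent.N901.GK.t_AUTO
    Pool.Agent.N891.GK.t_TOR Pool.Agent.N558.GK.t_KC Pool.Agent.N853.GK.t_SUB

theorem t_ASYGM' : S_ASYGM :=
  t_ASYGM Pool.Agent.N869.ZE.A.t_ASYA Pool.Agent.N19.GB.t_BIL t_LAM' Pool.Agent.N853.GK.t_SUB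
    Pool.Agent.N300.GK.BOXM.t_BOXM
    (Pool.Agent.N572.GK.RAREG.t_RAREG Pool.Agent.N340.GK.t_ESTG Pool.Agent.N803.GK.t_HALG
      Pool.Agent.N42.GK.t_CLSG Pool.Agent.N814.JL.MER.t_MEQ)

end Pool.Agent.N869.GK.M
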