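import Pool.Agent.N869.GK.M.Gen
import Pool.Agent.Y667.SX.Main
import Pool.Agent.Y723.QT.Rf
import Pool.Agent.R413.SJ.ShaQ
import Pool.Agent.TH841.NF.One

/-!
# Project GK: ranks and Tate-Shafarevich groups over `ℚ` and over multiquadratic fields
-/

set_option autoImplicit false
set_option linter.unusedVariables false
set_option linter.unusedSectionVars false

open scoped Classical

namespace Pool.Agent.N869.GK.M

open Finset WeierstrassCurve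
open Pool.Agent.N856.JL (sfp sfp_spec)
open Pool.Agent.N869.GK.N (S_SCALE)
open Pool.Agent.TH841.SH (SelG Bd)
open Pool.Agent.W307.RT (Sh)
open Pool.Agent.W307.RG (roots_tw fin_tw)
open Pool.Agent.Y667.SX (Sel2H)
open Pool.Agent.Y723.QT (Kl F2)
open Pool.Agent.TH841.NF (EF Gen tw_Sh tor2)

/-- the roots -/
structure Rts (A B : ℤ) (e : Fin 3 → ℤ) : Prop where
  disc : 4 * A ^ 3 + 27 * B ^ 2 ≠ 0
  eq : ∀ x : ℤ, x ^ 3 + A * x + B = (x - e 0) * (x - e 1) * (x - e 2)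

variable {A B : ℤ} {e : Fin 3 → ℤ}

theorem disc_tw (hD : 4 * A ^ 3 + 27 * B ^ 2 ≠ 0) {N : ℤ} (hN : N ≠ 0) :
    4 * (N ^ 2 * A) ^ 3 + 27 * (N ^ 3 * B) ^ 2 ≠ 0 := by
  have e1 : 4 * (N ^ 2 * A) ^ 3 + 27 * (N ^ 3 * B) ^ 2 = N ^ 6 * (4 * A ^ 3 + 27 * B ^ 2) := by ring
  rw [e1]
  exact mul_ne_zero (pow_ne_zero 6 hN) hD

/-- the 2-Selmer group, the rank and the Tate-Shafarevich group of a twist -/
theorem sel_card (h : Rts A B e) {N : ℤ} (hN : N ≠ 0) :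
    Finite (Sel2H (Sh (N ^ 2 * A) (N ^ 3 * B))) ∧
    Nat.card (Sel2H (Sh (N ^ 2 * A) (N ^ 3 * B))) = (SelG (N * e 0) (N * e 1) (N * e 2)).ncard ∧
    Finite {x : Pool.Agent.TH841.SH.D.Sha (Sh (N ^ 2 * A) (N ^ 3 * B)) // x + x = 0} ∧
    2 ^ (Module.finrank ℤ (Sh (N ^ 2 * A) (N ^ 3 * B)).toAffine.Point + 2) *
      Nat.card {x : Pool.Agent.TH841.SH.D.Sha (Sh (N ^ 2 * A) (N ^ 3 * B)) // x + x = 0} =
      (SelG (N * e 0) (N * e 1) (N * e 2)).ncard := by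
  have hD := disc_tw h.disc hN
  have hr := roots_tw h.eq N
  obtain ⟨g1, g2, g3⟩ := Pool.Agent.N803.GK.t_GR _ _ _ _ _ hD hr
  obtain ⟨h1, h2⟩ := Pool.Agent.Z864.SX.SELH _ _ _ _ _ hD hr g1
  obtain ⟨h3, h4⟩ := Pool.Agent.Y214.SX.RKSHA _ _ _ _ _ hD hr h1
  obtain ⟨h5⟩ := Pool.Agent.Y833.SX.SEL2 _ _ _ _ _ hD hr
  rw [g3]
  exact ⟨Finite.of_equiv _ h5.symm, (Nat.card_congr h5).trans h2, h3, h4.trans h2⟩

/-- the bound for the twist by a product -/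
theorem bd_of (h : Rts A B e) {N : ℤ} (hN : N ≠ 0) {ρ : ℕ}
    (hs : (SelG (N * e 0) (N * e 1) (N * e 2)).ncard ≤ 2 ^ (ρ + 2)) :
    Bd (Sh (N ^ 2 * A) (N ^ 3 * B)) (2 ^ ρ) := by
  obtain ⟨-, -, h3, h4⟩ := sel_card h hN
  have e1 := tor2 (Sh (N ^ 2 * A) (N ^ 3 * B))
  refine ⟨Finite.of_equiv _ e1, ?_⟩
  rw [← Nat.card_congr e1]
  rw [← h4, pow_add, pow_add] at hs
  have h5 : 2 ^ Module.finrank ℤ (Sh (N ^ 2 * A) (N ^ 3 * B)).toAffine.Point *
      Nat.card {x : Pool.Agent.TH841.SH.D.Sha (Sh (N ^ 2 * A) (N ^ 3 * B)) // x + x = 0} ≤ 2 ^ ρ := by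
    nlinarith
  exact_mod_cast h5

/-- rank zero and trivial 2-primary part -/
theorem triv_of (h : Rts A B e) {N : ℤ} (hN : N ≠ 0)
    (hs : (SelG (N * e 0) (N * e 1) (N * e 2)).ncard ≤ 2 ^ (0 + 2)) :
    Module.finrank ℤ (Sh (N ^ 2 * A) (N ^ 3 * B)).toAffine.Point = 0 ∧
      Kl (Pool.Agent.TH841.SH.D.Sha (Sh (N ^ 2 * A) (N ^ 3 * B))) 0 := by
  obtain ⟨-, -, h3, h4⟩ := sel_card h hN
  haveI := h3
  rw [← h4, pow_add] at hs
  have hne : Nonempty {x : Pool.Agent.TH841.SH.D.Sha (Sh (N ^ 2 * A) (N ^ 3 * B)) // x + x = 0} :=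
    ⟨⟨0, add_zero 0⟩⟩
  have hpos : 0 < Nat.card {x : Pool.Agent.TH841.SH.D.Sha (Sh (N ^ 2 * A) (N ^ 3 * B)) //
    x + x = 0} := Nat.card_pos
  set c := Nat.card {x : Pool.Agent.TH841.SH.D.Sha (Sh (N ^ 2 * A) (N ^ 3 * B)) // x + x = 0}
    with hc
  set r := Module.finrank ℤ (Sh (N ^ 2 * A) (N ^ 3 * B)).toAffine.Point with hr
  have h5 : 2 ^ r * c ≤ 1 := by
    have e1 : 2 ^ r * 2 ^ 2 * c = 4 * (2 ^ r * c) := by ring
    have e2 : (2 : ℕ) ^ (0 + 2) = 4 := by norm_num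
    rw [e1, e2] at hs
    omega
  have h6 : 1 ≤ 2 ^ r := Nat.one_le_two_pow
  have h7 : 2 ^ r = 1 := by nlinarith
  have h8 : c = 1 := by nlinarith
  refine ⟨(Nat.pow_eq_one.1 h7).resolve_left (by norm_num), ?_⟩
  have hsub : Subsingleton {x : Pool.Agent.TH841.SH.D.Sha (Sh (N ^ 2 * A) (N ^ 3 * B)) //
    x + x = 0} := (Nat.card_eq_one_iff_unique.1 h8).1
  have h9 : ∀ x : Pool.Agent.TH841.SH.D.Sha (Sh (N ^ 2 * A) (N ^ 3 * B)), x + x = 0 → x = 0 :=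
    fun x hx => congrArg Subtype.val (Subsingleton.elim
      (⟨x, hx⟩ : {x : Pool.Agent.TH841.SH.D.Sha (Sh (N ^ 2 * A) (N ^ 3 * B)) // x + x = 0})
      ⟨0, add_zero 0⟩)
  intro k
  induction k with
  | zero =>
    intro x hx
    exact hx
  | succ k ih =>
    intro x hx
    apply ih
    apply h9
    rw [← two_nsmul, ← mul_nsmul, ← pow_succ]
    exact hx

/-! ### Multiquadratic fields -/

section field

variable {F : Type} [Field F] [NumberField F] {n : ℕ} {x : Fin n → ℤ}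

/-- the rank over the field -/
theorem rk_field (h : Rts A B e) (hx : ∀ i, x i ≠ 0) (hF : Gen F x) :
    Pool.Agent.TH841.NF.D.rk (EF A B F) ≤ ∑ T : Finset (Fin n), Module.finrank ℤ
      (Sh ((∏ i ∈ T, x i) ^ 2 * A) ((∏ i ∈ T, x i) ^ 3 * B)).toAffine.Point := by
  obtain ⟨y, hy, hgen⟩ := hF
  have h3 := Pool.Agent.W307.RS.mq2 F n y x hy hx hgen A B h.disc
  have hfg : ∀ T : Finset (Fin n), Module.Finite ℤ (Sh ((∏ i ∈ T, x i) ^ 2 * A)
      ((∏ i ∈ T, x i) ^ 3 * B)).toAffine.Point := fun T =>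
    fin_tw h.disc h.eq (prod_ne_zero_iff.2 fun i _ => hx i)
  have h4 : ∀ T : Finset (Fin n), Module.rank ℤ
      (Sh ((∏ i ∈ T, x i) ^ 2 * A) ((∏ i ∈ T, x i) ^ 3 * B)).toAffine.Point =
      ((Module.finrank ℤ (Sh ((∏ i ∈ T, x i) ^ 2 * A)
        ((∏ i ∈ T, x i) ^ 3 * B)).toAffine.Point : ℕ) : Cardinal) := by
    intro T
    have := hfg T
    exact (Module.finrank_eq_rank ℤ _).symm
  have h6 : ∑ T : Finset (Fin n), Module.rank ℤ (Sh ((∏ i ∈ T, x i) ^ 2 * A)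
      ((∏ i ∈ T, x i) ^ 3 * B)).toAffine.Point =
      ((∑ T : Finset (Fin n), Module.finrank ℤ (Sh ((∏ i ∈ T, x i) ^ 2 * A)
      ((∏ i ∈ T, x i) ^ 3 * B)).toAffine.Point : ℕ) : Cardinal) := by
    rw [Nat.cast_sum]
    exact Finset.sum_congr rfl fun T _ => h4 T
  exact Module.finrank_le_of_rank_le (h3.trans (le_of_eq h6))

/-- **no growth**: the twists by the products have rank zero and trivial 2-primary part -/
theorem no_growth (h : Rts A B e) (hx : ∀ i, x i ≠ 0) (hF : Gen F x)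
    (hT : ∀ T : Finset (Fin n), T.Nonempty →
      Module.finrank ℤ (Sh ((∏ i ∈ T, x i) ^ 2 * A) ((∏ i ∈ T, x i) ^ 3 * B)).toAffine.Point = 0 ∧
      Kl (Pool.Agent.TH841.SH.D.Sha (Sh ((∏ i ∈ T, x i) ^ 2 * A) ((∏ i ∈ T, x i) ^ 3 * B))) 0) :
    Pool.Agent.TH841.NF.D.rk (EF A B F) = Pool.Agent.TH841.SH.D.rk (Sh A B) ∧
    (∀ m, Kl (Pool.Agent.TH841.SH.D.Sha (Sh A B)) m →
      Kl (Pool.Agent.TH841.NF.D.Sha (EF A B F)) (n + m)) ∧
    (F2 (Pool.Agent.TH841.NF.D.Sha (EF A B F)) ↔ F2 (Pool.Agent.TH841.SH.D.Sha (Sh A B))) := by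
  have he : (e 0) ^ 3 + A * (e 0) + B = 0 := by
    rw [h.eq (e 0), sub_self, zero_mul, zero_mul]
  have e1 : ∀ A B : ℤ, Sh ((1 : ℤ) ^ 2 * A) ((1 : ℤ) ^ 3 * B) = Sh A B := by
    intro A B
    rw [one_pow, one_pow, one_mul, one_mul]
  have hKl : ∀ m, Kl (Pool.Agent.TH841.SH.D.Sha (Sh A B)) m →
      Kl (Pool.Agent.TH841.NF.D.Sha (EF A B F)) (n + m) := by
    intro m hm
    obtain ⟨y, hy, hgen⟩ := hF
    refine Pool.Agent.Y723.QT.base_kl (r := y) (d := fun i => (x i : ℚ)) (fun i => ?_)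
      (fun i => by exact_mod_cast hx i) hgen fun T => ?_
    · rw [hy i, map_intCast]
    · rw [tw_Sh]
      rcases T.eq_empty_or_nonempty with h0 | h0
      · rw [h0, prod_empty, e1]
        exact hm
      · exact (hT T h0).2.mono (Nat.zero_le m)
  have hfg : Module.Finite ℤ (Sh A B).toAffine.Point := by
    have := fin_tw h.disc h.eq (d := 1) one_ne_zero
    rwa [e1] at this
  have htor : Finite {x : Pool.Agent.TH841.SH.D.Sha (Sh A B) // x + x = 0} := by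
    have := (sel_card h (N := 1) one_ne_zero).2.2.1
    rwa [e1] at this
  refine ⟨le_antisymm ?_ (Pool.Agent.Y723.QT.rk_ge h.disc he), hKl, ?_⟩
  · refine (rk_field h hx hF).trans ?_
    have h2 : ∑ T : Finset (Fin n), Module.finrank ℤ
        (Sh ((∏ i ∈ T, x i) ^ 2 * A) ((∏ i ∈ T, x i) ^ 3 * B)).toAffine.Point =
        Module.finrank ℤ (Sh A B).toAffine.Point := by
      rw [sum_eq_single (∅ : Finset (Fin n))]
      · rw [prod_empty, e1]
      · intro T _ hT0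
        exact (hT T (nonempty_iff_ne_empty.2 hT0)).1
      · intro h0
        exact absurd (mem_univ _) h0
    rw [h2]
    exact le_of_eq rfl
  · rw [Pool.Agent.Y723.QT.f2_iff htor,
      Pool.Agent.Y723.QT.f2_iff (Pool.Agent.Y723.QT.tf_EF (F := F) h.disc he)]
    constructor
    · rintro ⟨m, hm⟩
      exact ⟨_, Pool.Agent.Y723.QT.base_back hm⟩
    · rintro ⟨m, hm⟩
      exact ⟨_, hKl m hm⟩

/-- the rank and the corank over the field -/
theorem growth_le (h : Rts A B e) (hx : ∀ i, x i ≠ 0) (hF : Gen F x) {r₀ : ℕ}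
    {ρ : Finset (Fin n) → ℕ} (h0 : (SelG (e 0) (e 1) (e 2)).ncard = 2 ^ (r₀ + 2))
    (hT : ∀ T : Finset (Fin n), T.Nonempty →
      (SelG ((∏ i ∈ T, x i) * e 0) ((∏ i ∈ T, x i) * e 1) ((∏ i ∈ T, x i) * e 2)).ncard ≤
        2 ^ (ρ T + 2)) {q : ℕ} (hq : Pool.Agent.TH841.NF.D.HasDiv (EF A B F) q) :
    Pool.Agent.TH841.NF.D.rk (EF A B F) + q ≤
      r₀ + ∑ T ∈ univ.filter (fun T : Finset (Fin n) => T.Nonempty), ρ T := by
  have hne : ∀ T : Finset (Fin n), ∏ i ∈ T, x i ≠ 0 := fun T => prod_ne_zero_iff.2 fun i _ => hx i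
  have key := Pool.Agent.TH841.NF.one_field hF hx h.disc
    (fun T => if T.Nonempty then (2 : ℝ) ^ ρ T else 2 ^ r₀) (fun T => ?_)
    (fun T => fin_tw h.disc h.eq (hne T)) hq
  · have e2 : ∏ T : Finset (Fin n), (if T.Nonempty then (2 : ℝ) ^ ρ T else 2 ^ r₀) =
        2 ^ (r₀ + ∑ T ∈ univ.filter (fun T : Finset (Fin n) => T.Nonempty), ρ T) := by
      rw [prod_ite, prod_pow_eq_pow_sum, pow_add, mul_comm]
      congr 1
      have e3 : (univ.filter fun T : Finset (Fin n) => ¬ T.Nonempty) = {∅} := by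
        ext T
        rw [mem_filter, mem_singleton, not_nonempty_iff_eq_empty]
        exact ⟨fun h => h.2, fun h => ⟨mem_univ _, h⟩⟩
      rw [e3, prod_singleton]
    rw [e2] at key
    exact (pow_le_pow_iff_right₀ (by norm_num : (1 : ℝ) < 2)).1 key
  · show Bd _ (if T.Nonempty then (2 : ℝ) ^ ρ T else 2 ^ r₀)
    split_ifs with h1
    · exact bd_of h (hne T) (hT T h1)
    · rw [not_nonempty_iff_eq_empty] at h1
      rw [h1, prod_empty]
      refine bd_of h one_ne_zero ?_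
      rw [one_mul, one_mul, one_mul]
      exact h0.le

end field

end Pool.Agent.N869.GK.M
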